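import Pool.Agent.H269.GN.G040
import Pool.Agent.H269.GN.G041
import Pool.Agent.H269.GN.G043
import Pool.Agent.H269.GN.G049
import Pool.Agent.H269.GN.G050
import Pool.Agent.H269.GN.G051
import Pool.Agent.H269.GX.X140
import Pool.Agent.H269.GX.X142

/-!
# MP_f2af60_mp: in odd dimension `n ≥ 5` a nonzero real bounded compactly supported potential has
infinitely many resonances, except possibly for borderline potentials in dimensions `3` modulo `4`

The resonances of `-Δ + V` are the poles of the meromorphic continuation to `ℂ` of the matrix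
elements `μ ↦ ∫ (R_V(μ) f) g`, `f`, `g` in `L²` with compact support, of the resolvent
`R_V(μ) = (-Δ + V - μ²)⁻¹ : L² → L²`, which exists for `Im μ` large.
-/

set_option autoImplicit false

open MeasureTheory Filter Topology
open scoped FourierTransform

namespace Pool.Agent.Results.MP_f2af60_mp.Dichotomy

open Laplacian in
/-- `u` is a weak (distributional) solution of `(-Δ + V - μ²) u = f` on `ℝⁿ` -/
def IsWeakSol {n : ℕ} (V : EuclideanSpace ℝ (Fin n) → ℝ) (μ : ℂ)
    (f u : EuclideanSpace ℝ (Fin n) → ℂ) : Prop :=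
  ∀ φ : EuclideanSpace ℝ (Fin n) → ℂ, ContDiff ℝ ((⊤ : ℕ∞) : WithTop ℕ∞) φ → HasCompactSupport φ →
    ∫ x, u x * (-(Δ φ x) + (V x : ℂ) * φ x - μ ^ 2 * φ x) = ∫ x, f x * φ x

/-- `F` is the meromorphic continuation to `ℂ` of the matrix element
`μ ↦ ∫ (R_V(μ) f) g` of the resolvent: `F` is meromorphic on `ℂ`, and for `Im μ` large the equation
`(-Δ + V - μ²) u = f` has exactly one solution `u` in `L²` (up to equality almost everywhere), and
`F μ = ∫ u g` -/
def IsContinuation {n : ℕ} (V : EuclideanSpace ℝ (Fin n) → ℝ)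
    (f g : EuclideanSpace ℝ (Fin n) → ℂ) (F : ℂ → ℂ) : Prop :=
  MeromorphicOn F Set.univ ∧
    ∃ C : ℝ, ∀ μ : ℂ, C < μ.im →
      ∃ u : EuclideanSpace ℝ (Fin n) → ℂ, MemLp u 2 volume ∧ IsWeakSol V μ f u ∧
        (∀ w : EuclideanSpace ℝ (Fin n) → ℂ, MemLp w 2 volume → IsWeakSol V μ f w →
          w =ᵐ[volume] u) ∧
        F μ = ∫ x, u x * g x

/-- `l` is a scattering resonance of `-Δ + V` on `ℝⁿ`: the continuation of some matrix element of
the resolvent between compactly supported `L²` functions has a pole at `l` -/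
def IsResonance {n : ℕ} (V : EuclideanSpace ℝ (Fin n) → ℝ) (l : ℂ) : Prop :=
  ∃ f g : EuclideanSpace ℝ (Fin n) → ℂ, MemLp f 2 volume ∧ HasCompactSupport f ∧
    MemLp g 2 volume ∧ HasCompactSupport g ∧
    ∃ F : ℂ → ℂ, IsContinuation V f g F ∧ meromorphicOrderAt F l < 0

theorem IsWeakSol.congr {n : ℕ} {V W : EuclideanSpace ℝ (Fin n) → ℝ} {μ : ℂ}
    {f u : EuclideanSpace ℝ (Fin n) → ℂ} (h : IsWeakSol V μ f u) (hVW : V =ᵐ[volume] W) :
    IsWeakSol W μ f u := by
  intro φ h1 h2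
  rw [← h φ h1 h2]
  refine integral_congr_ae ?_
  filter_upwards [hVW] with x hx
  rw [hx]

theorem IsResonance.congr {n : ℕ} {V W : EuclideanSpace ℝ (Fin n) → ℝ} {l : ℂ}
    (h : IsResonance V l) (hVW : V =ᵐ[volume] W) : IsResonance W l := by
  obtain ⟨f, g, hf, hf', hg, hg', F, ⟨hF, C, hC⟩, hl⟩ := h
  refine ⟨f, g, hf, hf', hg, hg', F, ⟨hF, C, fun μ hμ => ?_⟩, hl⟩
  obtain ⟨u, hu, h1, h2, h3⟩ := hC μ hμ
  exact ⟨u, hu, h1.congr hVW, fun w hw h => h2 w hw (h.congr hVW.symm), h3⟩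

open Pool.Agent.H269

/-- for `Im μ` large the operator `1 + T μ` is invertible -/
theorem exists_inv {v : ℕ} {R M : ℝ} {V : EV v → ℝ} {A T : ℂ → OpV v R} (F : FamG v R M V A T)
    {μ : ℂ} (hμ : 2 * M + 1 < μ.im) : ∃ Y : OpV v R, (1 + T μ) * Y = 1 ∧ Y * (1 + T μ) = 1 := by
  have hM := F.hM
  have hpos : 0 < μ.im := by linarith
  have h0 : ‖T μ‖ ≤ M * (μ.im ^ 2)⁻¹ :=
    (F.T_norm μ).trans (mul_le_mul_of_nonneg_left (F.norm_le μ hpos).1 hM)
  have h2 : ‖T μ‖ < 1 := by
    refine lt_of_le_of_lt h0 ?_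
    rw [← div_eq_mul_inv, div_lt_one (by positivity)]
    nlinarith
  have h3 : IsUnit (1 + T μ) := by
    have := (Units.oneSub (-(T μ)) (by rwa [norm_neg])).isUnit
    simpa [sub_neg_eq_add] using this
  obtain ⟨U, hU⟩ := h3
  refine ⟨((U⁻¹ : (OpV v R)ˣ) : OpV v R), ?_, ?_⟩
  · rw [← hU]; exact U.mul_inv
  · rw [← hU]; exact U.inv_mul

theorem mul_memLp {v : ℕ} {R M : ℝ} {V : EV v → ℝ} {A T : ℂ → OpV v R} (F : FamG v R M V A T)
    {φ : EV v → ℂ} (hφ : MemLp φ 2 volume) : MemLp (fun x => (V x : ℂ) * φ x) 2 volume := by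
  refine hφ.of_le_mul (c := M) ?_ ?_
  · exact ((Complex.measurable_ofReal.comp F.meas).aestronglyMeasurable).mul hφ.1
  · filter_upwards with x
    rw [norm_mul]
    refine mul_le_mul_of_nonneg_right ?_ (norm_nonneg _)
    rw [Complex.norm_real, Real.norm_eq_abs]
    exact F.bdd x

open Laplacian in
/-- integrability of the weak equation -/
theorem weak_int {v : ℕ} {R M : ℝ} {V : EV v → ℝ} {A T : ℂ → OpV v R} (F : FamG v R M V A T)
    (μ : ℂ) {w : EV v → ℂ} (hw : MemLp w 2 volume) {φ : EV v → ℂ}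
    (hφ : ContDiff ℝ ((⊤ : ℕ∞) : WithTop ℕ∞) φ) (hc : HasCompactSupport φ) :
    Integrable (fun x => w x * (-(Δ φ x) + (V x : ℂ) * φ x - μ ^ 2 * φ x)) volume := by
  obtain ⟨l1, l2⟩ := weak_lapV hφ hc
  have hφ2 : MemLp φ 2 volume := hφ.continuous.memLp_of_hasCompactSupport hc
  have hl2 : MemLp (Δ φ) 2 volume := l1.memLp_of_hasCompactSupport l2
  have hm : MemLp (fun x => μ ^ 2 * φ x) 2 volume := hφ2.const_mul _
  exact mul_intV hw ((hl2.neg.add (mul_memLp F hφ2)).sub hm)

theorem isResonance_of_not_isUnit {v : ℕ} {R M : ℝ} {V : EV v → ℝ} {A T : ℂ → OpV v R}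
    (F : FamG v R M V A T) {l : ℂ} (hl : ¬ IsUnit (1 + T l)) : IsResonance V l := by
  obtain ⟨f, g, Φ, h1, h2, h3⟩ := F.exists_pole l hl
  have hmem : ∀ k : Lp ℂ 2 (muV v R), MemLp (extV v R k) 2 volume := by
    intro k
    have := Lp.memLp k
    exact (memLp_indicator_iff_restrict Metric.isClosed_closedBall.measurableSet).2 this
  have hcs : ∀ k : Lp ℂ 2 (muV v R), HasCompactSupport (extV v R k) := by
    intro k
    refine HasCompactSupport.intro (isCompact_closedBall (0 : EV v) R) fun x hx => ?_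
    simp [extV, hx]
  refine ⟨extV v R f, fun x => (starRingEnd ℂ) (extV v R g x), hmem f, hcs f, ?_, ?_, Φ, ⟨h1,
    2 * M + 1, fun μ hμ => ?_⟩, h3⟩
  · exact (hmem g).star
  · refine HasCompactSupport.intro (isCompact_closedBall (0 : EV v) R) fun x hx => ?_
    simp [extV, hx]
  · obtain ⟨Y, hY1, hY2⟩ := exists_inv F hμ
    have hpos : 0 < μ.im := by have := F.hM; linarith
    have hf : Y f + T μ (Y f) = f := by
      have := congrArg (fun B : OpV v R => B f) hY1
      simpa using this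
    obtain ⟨u, hu, hw, hg⟩ := F.weak_sol μ hpos f (Y f) hf
    refine ⟨u, hu, hw, fun w hw2 hww => ?_, ?_⟩
    · have := F.weak_unique μ hpos Y hY2 (fun x => w x - u x) (hw2.sub hu) ?_
      · filter_upwards [this] with x hx
        exact sub_eq_zero.1 hx
      · intro φ hφ hc
        have a2 := weak_int F μ hw2 hφ hc
        have b2 := weak_int F μ hu hφ hc
        have c1 := hww φ hφ hc
        have c2 := hw φ hφ hc
        have c4 : (fun x => (w x - u x) * (-(Laplacian.laplacian φ x) + (V x : ℂ) * φ x - μ ^ 2 * φ x))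
            = fun x => w x * (-(Laplacian.laplacian φ x) + (V x : ℂ) * φ x - μ ^ 2 * φ x) -
            u x * (-(Laplacian.laplacian φ x) + (V x : ℂ) * φ x - μ ^ 2 * φ x) := by
          funext x; ring
        rw [c4, integral_sub a2 b2, c1, c2]
        simp
    · rw [hg g, h2 μ Y hY1 hY2]

/-- the ball can be chosen such that a given resonance is a point where `1 + T` is not invertible -/
theorem radius_of_isResonance {v : ℕ} {V : EV v → ℝ} {l : ℂ} (h : IsResonance V l) :
    ∃ r : ℝ, ∀ (R M : ℝ) (A T : ℂ → OpV v R), FamG v R M V A T → r ≤ R → ¬ IsUnit (1 + T l) := by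
  obtain ⟨f, g, hf, hf', hg, hg', G, ⟨hG, C, hC⟩, hl⟩ := h
  obtain ⟨r₁, hr₁⟩ := hf'.isCompact.isBounded.subset_closedBall (0 : EV v)
  obtain ⟨r₂, hr₂⟩ := hg'.isCompact.isBounded.subset_closedBall (0 : EV v)
  refine ⟨max r₁ r₂, fun R M A T F hR hunit => ?_⟩
  have hfz : ∀ x, x ∉ Metric.closedBall (0 : EV v) R → f x = 0 := by
    intro x hx
    by_contra h
    exact hx (Metric.closedBall_subset_closedBall ((le_max_left _ _).trans hR)
      (hr₁ (subset_tsupport _ h)))
  have hgz : ∀ x, x ∉ Metric.closedBall (0 : EV v) R → g x = 0 := by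
    intro x hx
    by_contra h
    exact hx (Metric.closedBall_subset_closedBall ((le_max_right _ _).trans hR)
      (hr₂ (subset_tsupport _ h)))
  have hfR : MemLp f 2 (muV v R) := hf.restrict _
  have hgR : MemLp (fun x => (starRingEnd ℂ) (g x)) 2 (muV v R) := hg.star.restrict _
  have hfe : extV v R (hfR.toLp f) =ᵐ[volume] f := by
    have h1 : ∀ᵐ x ∂(volume : Measure (EV v)), x ∈ Metric.closedBall (0 : EV v) R →
        (hfR.toLp f : EV v → ℂ) x = f x :=
      (ae_restrict_iff' Metric.isClosed_closedBall.measurableSet).1 hfR.coeFn_toLp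
    filter_upwards [h1] with x hx
    by_cases hx' : x ∈ Metric.closedBall (0 : EV v) R
    · rw [extV, Set.indicator_of_mem hx', hx hx']
    · rw [extV, Set.indicator_of_notMem hx', hfz x hx']
  have hge : (fun x => (starRingEnd ℂ) (extV v R (hgR.toLp _) x)) =ᵐ[volume] g := by
    have h1 : ∀ᵐ x ∂(volume : Measure (EV v)), x ∈ Metric.closedBall (0 : EV v) R →
        (hgR.toLp _ : EV v → ℂ) x = (starRingEnd ℂ) (g x) :=
      (ae_restrict_iff' Metric.isClosed_closedBall.measurableSet).1 hgR.coeFn_toLp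
    filter_upwards [h1] with x hx
    by_cases hx' : x ∈ Metric.closedBall (0 : EV v) R
    · rw [extV, Set.indicator_of_mem hx', hx hx', Complex.conj_conj]
    · rw [extV, Set.indicator_of_notMem hx', map_zero, hgz x hx']
  obtain ⟨Φ, hΦ, hΦ1, hΦ2⟩ := F.matrix_element (hfR.toLp f) (hgR.toLp _)
  -- the two functions agree for large imaginary part
  have hagree : ∀ μ : ℂ, max (2 * M + 1) C < μ.im → G μ = Φ μ := by
    intro μ hμ
    have hμ1 : 2 * M + 1 < μ.im := (le_max_left _ _).trans_lt hμ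
    have hμ2 : C < μ.im := (le_max_right _ _).trans_lt hμ
    have hpos : 0 < μ.im := by have := F.hM; linarith
    obtain ⟨Y, hY1, hY2⟩ := exists_inv F hμ1
    have hYf : Y (hfR.toLp f) + T μ (Y (hfR.toLp f)) = hfR.toLp f := by
      have := congrArg (fun B : OpV v R => B (hfR.toLp f)) hY1
      simpa using this
    obtain ⟨u, hu, hw, hgu⟩ := F.weak_sol μ hpos (hfR.toLp f) (Y (hfR.toLp f)) hYf
    obtain ⟨u₀, hu₀, hw₀, huniq, hGμ⟩ := hC μ hμ2
    have hwu : IsWeakSol V μ f u := by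
      intro φ hφ hc
      rw [hw φ hφ hc]
      refine integral_congr_ae ?_
      filter_upwards [hfe] with x hx
      rw [hx]
    have hae := huniq u hu hwu
    rw [hΦ1 μ Y hY1 hY2, ← hgu (hgR.toLp _), hGμ]
    refine integral_congr_ae ?_
    filter_upwards [hae, hge] with x h1 h2
    rw [h1, h2]
  -- the identity theorem
  set z₀ : ℂ := ((max (2 * M + 1) C + 1 : ℝ) : ℂ) * Complex.I with hz₀
  have hz₀im : z₀.im = max (2 * M + 1) C + 1 := by
    rw [hz₀]; simp
  have hev : ∀ᶠ μ in 𝓝 z₀, G μ = Φ μ := by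
    have hopen : IsOpen {μ : ℂ | max (2 * M + 1) C < μ.im} :=
      isOpen_lt continuous_const Complex.continuous_im
    filter_upwards [hopen.mem_nhds (show z₀ ∈ {μ : ℂ | max (2 * M + 1) C < μ.im} by
      show max (2 * M + 1) C < z₀.im
      rw [hz₀im]; linarith)] with μ hμ
    exact hagree μ hμ
  have hdiff : MeromorphicOn (G - Φ) Set.univ := hG.sub hΦ
  have htop : meromorphicOrderAt (G - Φ) z₀ = ⊤ := by
    rw [meromorphicOrderAt_eq_top_iff]
    filter_upwards [nhdsWithin_le_nhds hev] with μ hμ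
    rw [Pi.sub_apply, hμ, sub_self]
  have htop' : meromorphicOrderAt (G - Φ) l = ⊤ := by
    by_contra hne
    have hconn : IsPreconnected (Set.univ : Set ℂ) := isPreconnected_univ
    exact hdiff.meromorphicOrderAt_ne_top_of_isPreconnected hconn (Set.mem_univ l)
      (Set.mem_univ z₀) hne htop
  have hcongr : G =ᶠ[𝓝[≠] l] Φ := by
    rw [meromorphicOrderAt_eq_top_iff] at htop'
    filter_upwards [htop'] with μ hμ
    exact sub_eq_zero.1 hμ
  rw [meromorphicOrderAt_congr hcongr] at hl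
  exact absurd (hΦ2 l hunit) (not_le.2 hl)

/-- Let `n ≥ 5` be odd. Every real-valued bounded compactly supported potential `V` on `ℝⁿ` which
does not vanish almost everywhere has infinitely many scattering resonances, unless `n` is `3` modulo
`4` and, for a positive integer `N`, `V` has at most `N` resonances and
`(log κ)⁻¹ ∫_{|ξ| ≤ κ} |ξ| ^ (n - 4) |𝓕 V ξ| ^ 2 dξ` tends to
`2 ^ (n + 2) ((n - 3) / 2)! π ^ (- (n - 5) / 2) N` as `κ → ∞`. -/
theorem result (n : ℕ) (hn : 5 ≤ n) (hodd : Odd n) (V : EuclideanSpace ℝ (Fin n) → ℝ)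
    (hV : MemLp V ⊤ volume) (hs : HasCompactSupport V) (hne : ¬ V =ᵐ[volume] 0) :
    {l : ℂ | IsResonance V l}.Infinite ∨
      (n % 4 = 3 ∧ ∃ N : ℕ, 1 ≤ N ∧ {l : ℂ | IsResonance V l}.encard ≤ N ∧
        Tendsto (fun κ : ℝ =>
          (∫ ξ in {ξ : EuclideanSpace ℝ (Fin n) | ‖ξ‖ ≤ κ}, ‖ξ‖ ^ (n - 4) *
            ‖𝓕 (fun x : EuclideanSpace ℝ (Fin n) => (V x : ℂ)) ξ‖ ^ 2) / Real.log κ)
          atTop (𝓝 (2 ^ (n + 2) * (((n - 3) / 2).factorial : ℝ) /
            Real.pi ^ ((n - 5) / 2) * N))) := by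
  obtain ⟨v, rfl⟩ : ∃ v, n = 2 * v + 3 := by
    obtain ⟨k, hk⟩ := hodd
    exact ⟨k - 1, by omega⟩
  have hv : 1 ≤ v := by omega
  by_cases hfin : {l : ℂ | IsResonance V l}.Infinite
  · exact Or.inl hfin
  rw [Set.not_infinite] at hfin
  right
  -- a good representative
  obtain ⟨M, hM0, hM⟩ : ∃ M : ℝ, 0 ≤ M ∧ ∀ᵐ x ∂(volume : Measure (EV v)), |V x| ≤ M := by
    refine ⟨(eLpNorm V ⊤ volume).toReal, ENNReal.toReal_nonneg, ?_⟩
    have h1 := ae_le_eLpNormEssSup (f := V) (μ := (volume : Measure (EV v)))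
    filter_upwards [h1] with x hx
    rw [← eLpNorm_exponent_top] at hx
    have h2 : ‖V x‖ₑ.toReal ≤ (eLpNorm V ⊤ volume).toReal := ENNReal.toReal_mono hV.2.ne hx
    simpa [Real.norm_eq_abs] using h2
  obtain ⟨R₀, hR₀⟩ := hs.isCompact.isBounded.subset_closedBall (0 : EV v)
  set V₁ : EV v → ℝ := hV.1.mk V with hV₁
  have hV₁m : Measurable V₁ := hV.1.stronglyMeasurable_mk.measurable
  have hV₁e : V =ᵐ[volume] V₁ := hV.1.ae_eq_mk
  set S : Set (EV v) := Metric.closedBall (0 : EV v) R₀ ∩ {x | |V₁ x| ≤ M} with hS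
  have hSm : MeasurableSet S :=
    Metric.isClosed_closedBall.measurableSet.inter (measurableSet_le hV₁m.abs measurable_const)
  set W : EV v → ℝ := S.indicator V₁ with hW
  have hWm : Measurable W := hV₁m.indicator hSm
  have hWb : ∀ x, |W x| ≤ M := by
    intro x
    by_cases hx : x ∈ S
    · rw [hW, Set.indicator_of_mem hx]; exact hx.2
    · rw [hW, Set.indicator_of_notMem hx]; simpa using hM0
  have hVW : V =ᵐ[volume] W := by
    filter_upwards [hM, hV₁e] with x h1 h2
    by_cases hx : x ∈ Metric.closedBall (0 : EV v) R₀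
    · have : x ∈ S := ⟨hx, by rw [Set.mem_ofPred_eq, ← h2]; exact h1⟩
      rw [hW, Set.indicator_of_mem this, h2]
    · rw [hW, Set.indicator_of_notMem (fun h => hx h.1)]
      by_contra h
      exact hx (hR₀ (subset_tsupport _ h))
  -- a ball containing the support, large enough for all resonances
  have hrad : ∀ l ∈ {l : ℂ | IsResonance V l}, ∃ r : ℝ, ∀ (R M : ℝ) (A T : ℂ → OpV v R),
      FamG v R M W A T → r ≤ R → ¬ IsUnit (1 + T l) :=
    fun l hl => radius_of_isResonance (IsResonance.congr hl hVW)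
  choose! r hr using hrad
  obtain ⟨r₀, hr₀⟩ := (hfin.image r).bddAbove
  set R : ℝ := max (max R₀ 1) r₀ with hR
  have hRpos : 0 < R := lt_of_lt_of_le one_pos ((le_max_right _ _).trans (le_max_left _ _))
  have hWs : ∀ x, x ∉ Metric.closedBall (0 : EV v) R → W x = 0 := by
    intro x hx
    refine Set.indicator_of_notMem (fun h => hx ?_) _
    exact Metric.closedBall_subset_closedBall ((le_max_left _ _).trans (le_max_left _ _)) h.1
  have hF : (𝓕 (fun x : EV v => (V x : ℂ)) : EV v → ℂ) = Vf W := by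
    funext ξ
    rw [Vf, Real.fourier_eq, Real.fourier_eq]
    refine integral_congr_ae ?_
    filter_upwards [hVW] with x hx
    rw [hx]
  obtain ⟨A, T, F⟩ := exists_FamG v R M W hRpos hM0 hWm hWb hWs
  have heq : {l : ℂ | ¬ IsUnit (1 + T l)} = {l : ℂ | IsResonance V l} := by
    ext l
    constructor
    · intro hl
      exact (isResonance_of_not_isUnit F hl).congr hVW.symm
    · intro hl
      exact hr l hl R M A T F ((hr₀ (Set.mem_image_of_mem r hl)).trans (le_max_right _ _))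
  have hfin' : {l : ℂ | ¬ IsUnit (1 + T l)}.Finite := by rw [heq]; exact hfin
  obtain ⟨hev, N, hN, hcard, hlim⟩ := F.dichotomy3 hv (fun h => hne (hVW.trans h)) hfin'
  refine ⟨?_, N, hN, ?_, ?_⟩
  · obtain ⟨k, hk⟩ := hev
    omega
  · rw [← heq, ← Set.Finite.coe_toFinset hfin', Set.encard_coe_eq_coe_finsetCard]
    exact_mod_cast hcard
  · rw [hF]
    have e : 2 * v + 3 - 4 = 2 * v - 1 := by omega
    have e1 : (2 * v + 3 - 3) / 2 = v := by omega
    have e2 : (2 * v + 3 - 5) / 2 = v - 1 := by omega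
    have e3 : 2 * v + 3 + 2 = 2 * v + 5 := by omega
    rw [e, e1, e2, e3, ← cdich_eq v hv]
    exact hlim

end Pool.Agent.Results.MP_f2af60_mp.Dichotomy
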